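import Mathlib

open Filter Asymptotics

namespace Pool.Agent.Results.MP_ca57f4_an.PowersOfTwo

/-- The point of the Euclidean plane with integer coordinates `z`. -/
noncomputable def pt (z : ℤ × ℤ) : EuclideanSpace ℝ (Fin 2) := !₂[(z.1 : ℝ), (z.2 : ℝ)]

/-- The line through `p` with direction vector `v`. -/
def line (p v : EuclideanSpace ℝ (Fin 2)) : Set (EuclideanSpace ℝ (Fin 2)) :=
  {q | ∃ t : ℝ, q = p + t • v}

/-- The line `γ_z`: for `z ≠ 0` the line through `z` perpendicular to `z`; for `z = 0` the line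
through the origin with the fixed rational direction `θ / |θ|`. -/
noncomputable def gamma (θ z : ℤ × ℤ) : Set (EuclideanSpace ℝ (Fin 2)) :=
  if z = 0 then line 0 (‖pt θ‖⁻¹ • pt θ) else line (pt z) (‖pt z‖⁻¹ • pt (-z.2, z.1))

/-- The X-ray transform `Pf(γ)`, the sum of `f` over the lattice points of `γ`. -/
noncomputable def xray (f : ℤ × ℤ → ℂ) (γ : Set (EuclideanSpace ℝ (Fin 2))) : ℂ :=
  ∑' y : {y : ℤ × ℤ // pt y ∈ γ}, f y

/-- `g (2^k) = (-1/2)^k` and `g n = 0` if `n` is not a power of two. -/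
noncomputable def g (n : ℕ) : ℂ :=
  if n = 2 ^ (Nat.log 2 n) then (-1 / 2) ^ (Nat.log 2 n) else 0

lemma g_two_pow (k : ℕ) : g (2 ^ k) = (-1 / 2) ^ k := by
  have : Nat.log 2 (2 ^ k) = k := Nat.log_pow (by norm_num) k
  unfold g
  rw [this, if_pos rfl]

lemma g_of_not {n : ℕ} (h : ∀ k : ℕ, n ≠ 2 ^ k) : g n = 0 := by
  unfold g
  rw [if_neg (h _)]

lemma g_zero : g 0 = 0 := g_of_not fun k => (pow_pos (by norm_num) k).ne

lemma norm_g_le (n : ℕ) : ‖g n‖ ≤ 1 / (n : ℝ) := by
  by_cases h : ∃ k : ℕ, n = 2 ^ k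
  · obtain ⟨k, rfl⟩ := h
    rw [g_two_pow, norm_pow]
    push_cast
    have : ‖(-1 / 2 : ℂ)‖ = 1 / 2 := by norm_num
    rw [this, one_div_pow]
  · push Not at h
    rw [g_of_not h, norm_zero]
    positivity

lemma g_mul (m n : ℕ) : g (m * n) = g m * g n := by
  by_cases h : ∃ j : ℕ, m * n = 2 ^ j
  · obtain ⟨j, hj⟩ := h
    obtain ⟨k, -, hk⟩ := (Nat.dvd_prime_pow Nat.prime_two).1 (Dvd.intro n hj)
    obtain ⟨l, -, hl⟩ := (Nat.dvd_prime_pow Nat.prime_two).1 (Dvd.intro_left m hj)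
    rw [hk, hl, ← pow_add, g_two_pow, g_two_pow, g_two_pow, pow_add]
  · push Not at h
    rw [g_of_not h]
    by_cases h1 : ∃ k : ℕ, m = 2 ^ k
    · obtain ⟨k, rfl⟩ := h1
      rw [g_of_not (n := n), mul_zero]
      rintro l rfl
      exact h (k + l) (pow_add _ _ _).symm
    · push Not at h1
      rw [g_of_not h1, zero_mul]

/-- The norm of a lattice point. -/
def nm (z : ℤ × ℤ) : ℕ := (z.1 ^ 2 + z.2 ^ 2).natAbs

lemma nm_cast (z : ℤ × ℤ) : ((nm z : ℕ) : ℤ) = z.1 ^ 2 + z.2 ^ 2 :=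
  Int.natAbs_of_nonneg (by positivity)

/-- Solutions of `k^2 + t^2 = 2^n`. -/
lemma key : ∀ (n : ℕ) (k t : ℤ), 0 < k → k ^ 2 + t ^ 2 = 2 ^ n →
    (∃ m : ℕ, k = 2 ^ m) ∧ (t = 0 ∨ t = k ∨ t = -k) := by
  intro n
  induction n using Nat.strong_induction_on with
  | _ n ih =>
    intro k t hk h
    rcases Int.even_or_odd' k with ⟨a, ha | ha⟩ <;> rcases Int.even_or_odd' t with ⟨b, hb | hb⟩
    · -- both even
      match n, h with
      | 0, h =>
        exfalso
        have ha1 : 1 ≤ a := by omega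
        rw [ha] at h
        nlinarith [sq_nonneg t]
      | 1, h =>
        exfalso
        have ha1 : 1 ≤ a := by omega
        rw [ha] at h
        nlinarith [sq_nonneg t]
      | n + 2, h =>
        have h' : a ^ 2 + b ^ 2 = 2 ^ n := by
          rw [ha, hb, pow_add] at h
          linarith
        obtain ⟨⟨m, hm⟩, h2⟩ := ih n (by omega) a b (by omega) h'
        refine ⟨⟨m + 1, by rw [ha, hm]; ring⟩, ?_⟩
        rcases h2 with h2 | h2 | h2
        · left; omega
        · right; left; omega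
        · right; right; omega
    · -- k even, t odd
      exfalso
      match n, h with
      | 0, h =>
        have ha1 : 1 ≤ a := by omega
        rw [ha] at h
        nlinarith [sq_nonneg t]
      | n + 1, h =>
        have : (k ^ 2 + t ^ 2) % 2 = 1 := by
          rw [ha, hb]; ring_nf; omega
        rw [h, pow_succ] at this
        omega
    · -- k odd, t even
      match n, h with
      | 0, h =>
        have hk1 : k = 1 := by nlinarith [sq_nonneg t]
        have ht : t = 0 := by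
          rw [hk1] at h
          have : t ^ 2 = 0 := by linarith
          exact pow_eq_zero_iff (by norm_num) |>.1 this
        exact ⟨⟨0, by rw [hk1]; norm_num⟩, Or.inl ht⟩
      | n + 1, h =>
        exfalso
        have : (k ^ 2 + t ^ 2) % 2 = 1 := by
          rw [ha, hb]; ring_nf; omega
        rw [h, pow_succ] at this
        omega
    · -- both odd
      match n, h with
      | 0, h =>
        exfalso
        have : (k ^ 2 + t ^ 2) % 2 = 0 := by
          rw [ha, hb]; ring_nf; omega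
        rw [h] at this
        omega
      | 1, h =>
        have hk1 : k = 1 := by nlinarith [sq_nonneg t]
        have ht : t = 1 ∨ t = -1 := by
          rw [hk1] at h
          have : t ^ 2 = 1 := by linarith
          exact sq_eq_one_iff.1 this
        refine ⟨⟨0, by rw [hk1]; norm_num⟩, Or.inr ?_⟩
        rw [hk1]; exact ht
      | n + 2, h =>
        exfalso
        have : (k ^ 2 + t ^ 2) % 4 = 2 := by
          rw [ha, hb]; ring_nf; omega
        rw [h, pow_add] at this
        omega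


/-- The basic line sum vanishes. -/
lemma hasSum_key (k : ℤ) (hk : 0 < k) : HasSum (fun t : ℤ => g (nm (k, t))) 0 := by
  by_cases h : ∃ m : ℕ, k = 2 ^ m
  · obtain ⟨m, rfl⟩ := h
    have hsupp : ∀ t ∉ ({0, 2 ^ m, -2 ^ m} : Finset ℤ), g (nm (2 ^ m, t)) = 0 := by
      intro t ht
      refine g_of_not fun n hn => ht ?_
      have h1 : ((2 : ℤ) ^ m) ^ 2 + t ^ 2 = 2 ^ n := by
        have := nm_cast (2 ^ m, t)
        rw [hn] at this
        push_cast at this
        linarith
      rcases (key n _ _ hk h1).2 with h2 | h2 | h2 <;> rw [h2] <;> simp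
    have h0 : (0 : ℤ) ∉ ({2 ^ m, -2 ^ m} : Finset ℤ) := by
      simp only [Finset.mem_insert, Finset.mem_singleton]
      omega
    have h1 : (2 : ℤ) ^ m ∉ ({-2 ^ m} : Finset ℤ) := by
      simp only [Finset.mem_singleton]
      omega
    have hs : HasSum (fun t : ℤ => g (nm (2 ^ m, t))) _ := hasSum_sum_of_ne_finset_zero hsupp
    rw [Finset.sum_insert h0, Finset.sum_insert h1, Finset.sum_singleton] at hs
    have e1 : nm (2 ^ m, 0) = 2 ^ (2 * m) := by
      zify
      rw [nm_cast]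
      ring
    have e2 : nm (2 ^ m, 2 ^ m) = 2 ^ (2 * m + 1) := by
      zify
      rw [nm_cast]
      ring
    have e3 : nm (2 ^ m, -2 ^ m) = 2 ^ (2 * m + 1) := by
      zify
      rw [nm_cast]
      ring
    rw [e1, e2, e3, g_two_pow, g_two_pow] at hs
    convert hs using 1
    rw [pow_succ]
    ring
  · have : (fun t : ℤ => g (nm (k, t))) = fun _ => 0 := by
      funext t
      refine g_of_not fun n hn => h ?_
      have h1 : k ^ 2 + t ^ 2 = 2 ^ n := by
        have := nm_cast (k, t)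
        rw [hn] at this
        push_cast at this
        linarith
      exact (key n _ _ hk h1).1
    rw [this]
    exact hasSum_zero

/-- The function away from the origin. -/
noncomputable def f0 (z : ℤ × ℤ) : ℂ := g (nm z)

lemma nm_mul (a b c d : ℤ) : nm (a * c - b * d, b * c + a * d) = nm (a, b) * nm (c, d) := by
  zify
  rw [nm_cast, nm_cast, nm_cast]
  ring

lemma pt_apply0 (z : ℤ × ℤ) : pt z 0 = z.1 := rfl

lemma pt_apply1 (z : ℤ × ℤ) : pt z 1 = z.2 := rfl

lemma pt_inj {y z : ℤ × ℤ} (h : pt y = pt z) : y = z := by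
  have h0 := congrArg (fun v : EuclideanSpace ℝ (Fin 2) => v 0) h
  have h1 := congrArg (fun v : EuclideanSpace ℝ (Fin 2) => v 1) h
  simp only [pt_apply0, pt_apply1] at h0 h1
  exact Prod.ext (by exact_mod_cast h0) (by exact_mod_cast h1)

lemma norm_pt_sq (z : ℤ × ℤ) : ‖pt z‖ ^ 2 = (nm z : ℝ) := by
  rw [EuclideanSpace.norm_sq_eq, Fin.sum_univ_two, pt_apply0, pt_apply1]
  have := nm_cast z
  have h : ((nm z : ℤ) : ℝ) = ((z.1 ^ 2 + z.2 ^ 2 : ℤ) : ℝ) := by rw [this]
  push_cast at h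
  rw [h]
  simp [sq_abs]

lemma norm_pt_pos {z : ℤ × ℤ} (hz : z ≠ 0) : 0 < ‖pt z‖ := by
  rw [norm_pos_iff]
  intro h
  apply hz
  apply pt_inj
  rw [h]
  ext i
  fin_cases i <;> simp [pt]

/-- Membership in a line through lattice points with rational direction. -/
lemma mem_line_iff (z v y : ℤ × ℤ) (hv : v ≠ 0) (r : ℝ) (hr : r ≠ 0) :
    pt y ∈ line (pt z) (r • pt v) ↔ (y.1 - z.1) * v.2 = (y.2 - z.2) * v.1 := by
  constructor
  · rintro ⟨t, ht⟩
    have h0 := congrArg (fun v : EuclideanSpace ℝ (Fin 2) => v 0) ht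
    have h1 := congrArg (fun v : EuclideanSpace ℝ (Fin 2) => v 1) ht
    simp only [PiLp.add_apply, PiLp.smul_apply, pt_apply0, pt_apply1, smul_eq_mul] at h0 h1
    have : ((y.1 : ℝ) - z.1) * v.2 = (y.2 - z.2) * v.1 := by
      rw [h0, h1]; ring
    exact_mod_cast this
  · intro h
    have h' : ((y.1 : ℝ) - z.1) * v.2 = (y.2 - z.2) * v.1 := by exact_mod_cast h
    by_cases h1 : v.1 = 0
    · have h2 : v.2 ≠ 0 := fun h2 => hv (Prod.ext h1 h2)
      have h2' : (v.2 : ℝ) ≠ 0 := by exact_mod_cast h2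
      refine ⟨(y.2 - z.2) / (r * v.2), ?_⟩
      ext i
      fin_cases i
      · simp only [PiLp.add_apply, PiLp.smul_apply, smul_eq_mul]
        show pt y 0 = pt z 0 + _ * (r * pt v 0)
        rw [pt_apply0, pt_apply0, pt_apply0]
        rw [h1] at h' ⊢
        have : (y.1 : ℝ) - z.1 = 0 := by
          rcases mul_eq_zero.1 (h'.trans (by push_cast; ring)) with h | h
          · exact h
          · exact absurd h h2'
        push_cast
        linarith
      · simp only [PiLp.add_apply, PiLp.smul_apply, smul_eq_mul]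
        show pt y 1 = pt z 1 + _ * (r * pt v 1)
        rw [pt_apply1, pt_apply1, pt_apply1]
        field_simp
        ring
    · have h1' : (v.1 : ℝ) ≠ 0 := by exact_mod_cast h1
      refine ⟨(y.1 - z.1) / (r * v.1), ?_⟩
      ext i
      fin_cases i
      · simp only [PiLp.add_apply, PiLp.smul_apply, smul_eq_mul]
        show pt y 0 = pt z 0 + _ * (r * pt v 0)
        rw [pt_apply0, pt_apply0, pt_apply0]
        field_simp
        ring
      · simp only [PiLp.add_apply, PiLp.smul_apply, smul_eq_mul]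
        show pt y 1 = pt z 1 + _ * (r * pt v 1)
        rw [pt_apply1, pt_apply1, pt_apply1]
        field_simp
        linarith


/-- The decomposition `z = d w` with `w` primitive. -/
lemma exists_primitive (z : ℤ × ℤ) (hz : z ≠ 0) :
    ∃ (d : ℤ) (w : ℤ × ℤ), 0 < d ∧ IsCoprime w.1 w.2 ∧ z.1 = d * w.1 ∧ z.2 = d * w.2 := by
  have hpos : 0 < Int.gcd z.1 z.2 := by
    rw [Int.gcd_pos_iff]
    by_contra h
    push Not at h
    exact hz (Prod.ext h.1 h.2)
  obtain ⟨w1, w2, hc, h1, h2⟩ := Int.exists_gcd_one hpos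
  refine ⟨Int.gcd z.1 z.2, (w1, w2), by exact_mod_cast hpos, ?_, ?_, ?_⟩
  · exact Int.isCoprime_iff_gcd_eq_one.2 hc
  · rw [mul_comm]; exact h1
  · rw [mul_comm]; exact h2

/-- The lattice points of the line through `z` in the direction of the primitive vector `w`. -/
lemma line_param (z w : ℤ × ℤ) (hw : IsCoprime w.1 w.2) (y : ℤ × ℤ)
    (h : (y.1 - z.1) * w.2 = (y.2 - z.2) * w.1) :
    ∃ t : ℤ, y = (z.1 + t * w.1, z.2 + t * w.2) := by
  have hd : w.1 ∣ (y.1 - z.1) * w.2 := ⟨y.2 - z.2, by rw [h]; ring⟩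
  obtain ⟨t, ht⟩ := hw.dvd_of_dvd_mul_right hd
  by_cases h1 : w.1 = 0
  · -- then w.2 = ± 1
    rw [h1] at hw ht h
    have hw2 : w.2 * w.2 = 1 := by
      rcases Int.isUnit_iff.1 (isCoprime_zero_left.1 hw) with h | h <;> rw [h] <;> norm_num
    refine ⟨(y.2 - z.2) * w.2, Prod.ext ?_ ?_⟩
    · show y.1 = z.1 + _ * w.1
      rw [h1]; linarith
    · show y.2 = z.2 + (y.2 - z.2) * w.2 * w.2
      rw [mul_assoc, hw2]; ring
  · refine ⟨t, Prod.ext ?_ ?_⟩
    · show y.1 = z.1 + t * w.1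
      linarith
    · show y.2 = z.2 + t * w.2
      rw [ht] at h
      have : w.1 * (t * w.2) = w.1 * (y.2 - z.2) := by linarith
      have := mul_left_cancel₀ h1 this
      linarith

/-- The bijection between `ℤ` and the lattice points of a line with rational direction. -/
noncomputable def lineEquiv (z w v : ℤ × ℤ) (hw : IsCoprime w.1 w.2) (d : ℤ) (hd : d ≠ 0)
    (hv : v = (d * w.1, d * w.2)) (r : ℝ) (hr : r ≠ 0) :
    ℤ ≃ {y : ℤ × ℤ // pt y ∈ line (pt z) (r • pt v)} := by
  have hv0 : v ≠ 0 := by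
    rw [hv]
    intro h
    have h1 : d * w.1 = 0 := congrArg Prod.fst h
    have h2 : d * w.2 = 0 := congrArg Prod.snd h
    have h1' := (mul_eq_zero.1 h1).resolve_left hd
    have h2' := (mul_eq_zero.1 h2).resolve_left hd
    rw [h1', h2'] at hw
    exact not_isCoprime_zero_zero hw
  refine Equiv.ofBijective (fun t => ⟨(z.1 + t * w.1, z.2 + t * w.2), ?_⟩) ⟨?_, ?_⟩
  · rw [mem_line_iff z v _ hv0 r hr, hv]
    show (z.1 + t * w.1 - z.1) * (d * w.2) = (z.2 + t * w.2 - z.2) * (d * w.1)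
    ring
  · intro s t hst
    have h := congrArg Subtype.val hst
    have h1 : z.1 + s * w.1 = z.1 + t * w.1 := congrArg Prod.fst h
    have h2 : z.2 + s * w.2 = z.2 + t * w.2 := congrArg Prod.snd h
    by_contra hne
    have hne' : s - t ≠ 0 := sub_ne_zero.2 hne
    have h1' : (s - t) * w.1 = 0 := by linarith
    have h2' : (s - t) * w.2 = 0 := by linarith
    rw [(mul_eq_zero.1 h1').resolve_left hne', (mul_eq_zero.1 h2').resolve_left hne'] at hw
    exact not_isCoprime_zero_zero hw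
  · rintro ⟨y, hy⟩
    rw [mem_line_iff z v _ hv0 r hr, hv] at hy
    have hy' : d * ((y.1 - z.1) * w.2) = d * ((y.2 - z.2) * w.1) := by
      simp only at hy
      linarith
    obtain ⟨t, ht⟩ := line_param z w hw y (mul_left_cancel₀ hd hy')
    exact ⟨t, Subtype.ext ht.symm⟩

lemma lineEquiv_apply (z w v : ℤ × ℤ) (hw : IsCoprime w.1 w.2) (d : ℤ) (hd : d ≠ 0)
    (hv : v = (d * w.1, d * w.2)) (r : ℝ) (hr : r ≠ 0) (t : ℤ) :
    (lineEquiv z w v hw d hd hv r hr t : ℤ × ℤ) = (z.1 + t * w.1, z.2 + t * w.2) := rfl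

/-- The sum of `f0` over each `γ_z`, `z ≠ 0`, vanishes. -/
lemma hasSum_f0 (θ z : ℤ × ℤ) (hz : z ≠ 0) :
    HasSum (fun y : {y : ℤ × ℤ // pt y ∈ gamma θ z} => f0 y) 0 := by
  obtain ⟨d, w, hd, hw, h1, h2⟩ := exists_primitive z hz
  unfold gamma
  rw [if_neg hz]
  have hw' : IsCoprime (-w.2, w.1).1 (-w.2, w.1).2 := hw.symm.neg_left
  have hv : ((-z.2, z.1) : ℤ × ℤ) = (d * (-w.2, w.1).1, d * (-w.2, w.1).2) := by
    rw [h1, h2]; simp
  have hr : ‖pt z‖⁻¹ ≠ 0 := inv_ne_zero (norm_pt_pos hz).ne'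
  rw [← (lineEquiv z (-w.2, w.1) (-z.2, z.1) hw' d hd.ne' hv _ hr).hasSum_iff]
  have key2 : (fun y : {y : ℤ × ℤ // pt y ∈ line (pt z) (‖pt z‖⁻¹ • pt (-z.2, z.1))} => f0 y) ∘
      (lineEquiv z (-w.2, w.1) (-z.2, z.1) hw' d hd.ne' hv _ hr) =
      fun t : ℤ => g (nm w) * g (nm (d, t)) := by
    funext t
    rw [Function.comp_apply, lineEquiv_apply, f0, ← g_mul]
    have : ((z.1 + t * (-w.2, w.1).1, z.2 + t * (-w.2, w.1).2) : ℤ × ℤ) =
        (w.1 * d - w.2 * t, w.2 * d + w.1 * t) := by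
      rw [h1, h2]
      simp only [Prod.mk.injEq]
      constructor <;> ring
    rw [this, nm_mul]
  rw [key2]
  simpa using (hasSum_key d hd).mul_left (g (nm w))

lemma summable_f0_central (θ : ℤ × ℤ) (hθ : θ ≠ 0) :
    Summable (fun y : {y : ℤ × ℤ // pt y ∈ gamma θ 0} => f0 y) := by
  obtain ⟨d, w, hd, hw, h1, h2⟩ := exists_primitive θ hθ
  unfold gamma
  rw [if_pos rfl]
  have h00 : (0 : EuclideanSpace ℝ (Fin 2)) = pt 0 := by
    ext i
    fin_cases i <;> simp [pt]
  rw [h00]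
  have hv : θ = (d * w.1, d * w.2) := Prod.ext h1 h2
  have hr : ‖pt θ‖⁻¹ ≠ 0 := inv_ne_zero (norm_pt_pos hθ).ne'
  rw [← (lineEquiv 0 w θ hw d hd.ne' hv _ hr).summable_iff]
  refine Summable.of_norm_bounded (g := fun t : ℤ => 1 / ((t : ℝ) ^ 2)) ?_ ?_
  · exact Real.summable_one_div_int_pow.2 (by norm_num)
  · intro t
    rw [Function.comp_apply, lineEquiv_apply, f0]
    refine (norm_g_le _).trans ?_
    by_cases ht : t = 0
    · rw [ht]
      simp [nm]
    · have hw1 : 1 ≤ w.1 ^ 2 + w.2 ^ 2 := by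
        by_contra hcon
        have h3 : w.1 ^ 2 + w.2 ^ 2 = 0 := by nlinarith [sq_nonneg w.1, sq_nonneg w.2]
        have h4 : w.1 = 0 := by nlinarith [sq_nonneg w.1, sq_nonneg w.2]
        have h5 : w.2 = 0 := by nlinarith [sq_nonneg w.1, sq_nonneg w.2]
        rw [h4, h5] at hw
        exact not_isCoprime_zero_zero hw
      have h6 : (t : ℝ) ^ 2 ≤ (nm ((0 : ℤ × ℤ).1 + t * w.1, (0 : ℤ × ℤ).2 + t * w.2) : ℝ) := by
        have h7 := nm_cast ((0 : ℤ × ℤ).1 + t * w.1, (0 : ℤ × ℤ).2 + t * w.2)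
        have h8 : t ^ 2 ≤ (nm ((0 : ℤ × ℤ).1 + t * w.1, (0 : ℤ × ℤ).2 + t * w.2) : ℤ) := by
          rw [h7]
          simp only [Prod.fst_zero, Prod.snd_zero, zero_add]
          nlinarith [sq_nonneg t]
        exact_mod_cast h8
      have ht' : 0 < (t : ℝ) ^ 2 := by positivity
      exact one_div_le_one_div_of_le ht' h6

/-- Uniqueness fails: for each choice of the rational direction `θ` there is a nonzero `f` with
`f(x) = O(|x|^{-(1+ε)})` (in fact `ε = 1`) all of whose sums over the lines `γ_z` vanish. -/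
theorem result (θ : ℤ × ℤ) (hθ : θ ≠ 0) :
    ∃ f : ℤ × ℤ → ℂ, f ≠ 0 ∧
      (∃ ε : ℝ, 0 < ε ∧ f =O[cofinite] fun x => ‖pt x‖ ^ (-(1 + ε))) ∧
      ∀ z : ℤ × ℤ, Summable (fun y : {y : ℤ × ℤ // pt y ∈ gamma θ z} => ‖f y‖) ∧
        xray f (gamma θ z) = 0 := by
  classical
  set S : ℂ := xray f0 (gamma θ 0) with hS
  refine ⟨fun z => if z = 0 then -S else f0 z, ?_, ⟨1, one_pos, ?_⟩, ?_⟩
  · intro h
    have h1 := congrFun h (1, 0)
    have h2 : f0 (1, 0) = 1 := by
      have : nm (1, 0) = 2 ^ 0 := rfl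
      rw [f0, this, g_two_pow, pow_zero]
    have h3 : ((1, 0) : ℤ × ℤ) ≠ 0 := by
      intro h; exact absurd (congrArg Prod.fst h) one_ne_zero
    simp only [if_neg h3, h2, Pi.zero_apply] at h1
    exact one_ne_zero h1
  · refine IsBigO.of_bound 1 ?_
    have : ∀ᶠ x : ℤ × ℤ in cofinite, x ≠ 0 := (Set.finite_singleton 0).compl_mem_cofinite
    filter_upwards [this] with x hx
    rw [if_neg hx, f0]
    refine (norm_g_le _).trans (le_of_eq ?_)
    rw [← norm_pt_sq, one_mul, Real.norm_of_nonneg (by positivity),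
      show (-(1 + 1) : ℝ) = -((2 : ℕ) : ℝ) by norm_num, Real.rpow_neg (norm_nonneg _),
      Real.rpow_natCast, one_div]
  · intro z
    by_cases hz : z = 0
    · subst hz
      have hmem : pt (0 : ℤ × ℤ) ∈ gamma θ 0 := by
        unfold gamma
        rw [if_pos rfl]
        refine ⟨0, ?_⟩
        rw [zero_smul, add_zero]
        ext i
        fin_cases i <;> simp [pt]
      have hs : HasSum (fun y : {y : ℤ × ℤ // pt y ∈ gamma θ 0} =>
          if (y : ℤ × ℤ) = 0 then -S else f0 y) 0 := by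
        have h1 : HasSum (fun y : {y : ℤ × ℤ // pt y ∈ gamma θ 0} => f0 y) S :=
          (summable_f0_central θ hθ).hasSum
        have h2 : HasSum (fun y : {y : ℤ × ℤ // pt y ∈ gamma θ 0} =>
            if y = ⟨0, hmem⟩ then -S else 0) (-S) := hasSum_ite_eq _ _
        have h3 := h1.add h2
        rw [add_neg_cancel] at h3
        convert h3 using 1
        funext y
        have hiff : (y : ℤ × ℤ) = 0 ↔ y = ⟨0, hmem⟩ := by rw [Subtype.ext_iff]
        by_cases hy : (y : ℤ × ℤ) = 0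
        · rw [if_pos hy, if_pos (hiff.1 hy), hy]
          have : f0 0 = 0 := g_zero
          rw [this, zero_add]
        · rw [if_neg hy, if_neg (fun h => hy (hiff.2 h)), add_zero]
      exact ⟨hs.summable.norm, hs.tsum_eq⟩
    · have hne : ∀ y : {y : ℤ × ℤ // pt y ∈ gamma θ z}, (y : ℤ × ℤ) ≠ 0 := by
        rintro ⟨y, hy⟩ hy0
        simp only at hy0
        subst hy0
        unfold gamma at hy
        rw [if_neg hz, mem_line_iff z _ _ ?_ _ (inv_ne_zero (norm_pt_pos hz).ne')] at hy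
        · simp only [Prod.fst_zero, Prod.snd_zero] at hy
          have h1 : z.1 = 0 := by nlinarith [sq_nonneg z.1, sq_nonneg z.2]
          have h2 : z.2 = 0 := by nlinarith [sq_nonneg z.1, sq_nonneg z.2]
          exact hz (Prod.ext h1 h2)
        · intro h
          have h1 : -z.2 = 0 := congrArg Prod.fst h
          have h2 : z.1 = 0 := congrArg Prod.snd h
          exact hz (Prod.ext h2 (neg_eq_zero.1 h1))
      have hs : HasSum (fun y : {y : ℤ × ℤ // pt y ∈ gamma θ z} =>
          if (y : ℤ × ℤ) = 0 then -S else f0 y) 0 := by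
        have : (fun y : {y : ℤ × ℤ // pt y ∈ gamma θ z} =>
            if (y : ℤ × ℤ) = 0 then -S else f0 y) =
            fun y : {y : ℤ × ℤ // pt y ∈ gamma θ z} => f0 y := by
          funext y
          rw [if_neg (hne y)]
        rw [this]
        exact hasSum_f0 θ z hz
      exact ⟨hs.summable.norm, hs.tsum_eq⟩

end Pool.Agent.Results.MP_ca57f4_an.PowersOfTwo

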